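import Mathlib

/-!
# Project LX: greedy grouping
-/

set_option autoImplicit false

namespace Pool.Agent.Y641.LX

open Finset

theorem exists_block {ι : Type} [DecidableEq ι] (s : ℕ) (hs : 0 < s) (v : ι → ℕ)
    (C : Finset ι) : (∀ i ∈ C, v i < s) → s ≤ ∑ i ∈ C, v i →
    ∃ A ⊆ C, s ≤ ∑ i ∈ A, v i ∧ ∑ i ∈ A, v i < 2 * s := by
  induction C using Finset.induction_on with
  | empty => intro _ h; simp at h; omega
  | insert a C ha ih =>
    intro hC h
    by_cases h1 : s ≤ ∑ i ∈ C, v i
    · obtain ⟨A, hA, h2, h3⟩ := ih (fun i hi => hC i (Finset.mem_insert_of_mem hi)) h1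
      exact ⟨A, hA.trans (Finset.subset_insert _ _), h2, h3⟩
    · refine ⟨insert a C, Finset.Subset.refl _, h, ?_⟩
      rw [Finset.sum_insert ha]
      have := hC a (Finset.mem_insert_self _ _)
      omega

theorem greedy {ι : Type} [Fintype ι] [DecidableEq ι] (s : ℕ) (hs : 0 < s) (v : ι → ℕ) :
    ∀ (N : ℕ) (C : Finset ι), C.card ≤ N → (∀ i ∈ C, v i < s) →
    ∃ (G : ℕ) (g : ι → Option (Fin G)), (∀ i, i ∉ C → g i = none) ∧
      (∀ c, s ≤ ∑ i ∈ Finset.univ.filter (fun i => g i = some c), v i) ∧
      ∑ i ∈ C, v i < 2 * s * G + s := by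
  intro N
  induction N with
  | zero =>
    intro C hC _
    have : C = ∅ := Finset.card_eq_zero.1 (by omega)
    subst this
    exact ⟨0, fun _ => none, fun _ _ => rfl, fun c => c.elim0, by simpa using hs⟩
  | succ N ih =>
    intro C hC hv
    by_cases h1 : s ≤ ∑ i ∈ C, v i
    · obtain ⟨A, hA, hA1, hA2⟩ := exists_block s hs v C hv h1
      have hAn : A.Nonempty := by
        rw [Finset.nonempty_iff_ne_empty]
        rintro rfl
        simp at hA1
        omega
      have hcard : (C \ A).card ≤ N := by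
        have h2 := Finset.card_sdiff_of_subset hA
        have h3 := Finset.card_pos.2 hAn
        omega
      obtain ⟨G, g, hg1, hg2, hg3⟩ := ih (C \ A) hcard
        (fun i hi => hv i (Finset.mem_sdiff.1 hi).1)
      have hgA : ∀ i ∈ A, g i = none := fun i hi =>
        hg1 i (fun h => (Finset.mem_sdiff.1 h).2 hi)
      refine ⟨G + 1, fun i => if i ∈ A then some (Fin.last G) else (g i).map Fin.castSucc,
        fun i hi => ?_, fun c => ?_, ?_⟩
      · have h2 : i ∉ A := fun h => hi (hA h)
        have h3 : i ∉ C \ A := fun h => hi (Finset.mem_sdiff.1 h).1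
        simp [h2, hg1 i h3]
      · induction c using Fin.lastCases with
        | last =>
          refine hA1.trans (Finset.sum_le_sum_of_subset fun i hi => ?_)
          exact Finset.mem_filter.2 ⟨Finset.mem_univ _, by simp [hi]⟩
        | cast c =>
          refine (hg2 c).trans (Finset.sum_le_sum_of_subset fun i hi => ?_)
          have h2 := (Finset.mem_filter.1 hi).2
          have h3 : i ∉ A := fun h => by
            rw [hgA i h] at h2
            simp at h2
          exact Finset.mem_filter.2 ⟨Finset.mem_univ _, by simp [h3, h2]⟩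
      · have h2 := Finset.sum_sdiff hA (f := v)
        have h3 : 2 * s * (G + 1) + s = 2 * s * G + s + 2 * s := by ring
        omega
    · refine ⟨0, fun _ => none, fun _ _ => rfl, fun c => c.elim0, ?_⟩
      simpa using h1

theorem group_gen (r m s : ℕ) (v : Fin r → ℕ) (hs : 0 < s)
    (hv : (2 * m - 1) * s ≤ ∑ i, v i) :
    ∃ (G : ℕ) (g : Fin r → Option (Fin G)),
      (∀ c, s ≤ ∑ i ∈ Finset.univ.filter (fun i => g i = some c), v i) ∧
      m ≤ G + ∑ i ∈ Finset.univ.filter (fun i => g i = none), v i / s := by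
  classical
  obtain ⟨G, g, hg1, hg2, hg3⟩ := greedy s hs v _ (Finset.univ.filter fun i => v i < s) le_rfl
    (fun i hi => (Finset.mem_filter.1 hi).2)
  refine ⟨G, g, hg2, ?_⟩
  have h1 : ∑ i ∈ Finset.univ.filter (fun i => ¬ v i < s), v i ≤
      2 * s * ∑ i ∈ Finset.univ.filter (fun i => g i = none), v i / s := by
    have h2 : ∑ i ∈ Finset.univ.filter (fun i => ¬ v i < s), v i ≤
        ∑ i ∈ Finset.univ.filter (fun i => ¬ v i < s), 2 * s * (v i / s) := by
      refine Finset.sum_le_sum fun i hi => ?_
      have h3 : s ≤ v i := not_lt.1 (Finset.mem_filter.1 hi).2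
      have h4 : 1 ≤ v i / s := (Nat.one_le_div_iff hs).2 h3
      have h5 := Nat.div_add_mod (v i) s
      have h6 := Nat.mod_lt (v i) hs
      nlinarith
    refine h2.trans ?_
    rw [Finset.mul_sum]
    refine Finset.sum_le_sum_of_subset fun i hi => ?_
    refine Finset.mem_filter.2 ⟨Finset.mem_univ _, hg1 i fun h => ?_⟩
    exact (Finset.mem_filter.1 hi).2 (Finset.mem_filter.1 h).2
  have h2 := Finset.sum_filter_add_sum_filter_not Finset.univ (fun i => v i < s) v
  set E := ∑ i ∈ Finset.univ.filter (fun i => g i = none), v i / s with hE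
  have h3 : (2 * m - 1) * s < (2 * (G + E) + 1) * s := by
    have e : (2 * (G + E) + 1) * s = 2 * s * G + s + 2 * s * E := by ring
    omega
  have h4 := Nat.lt_of_mul_lt_mul_right h3
  omega

end Pool.Agent.Y641.LX
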