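import Pool.Agent.Z894.LX.Stm
import Pool.Agent.Y641.LX.Group0

/-!
# Project LX, part 8: grouping
-/

set_option autoImplicit false

namespace Pool.Agent.Y641.LX

theorem group_holds : Pool.Agent.Z894.LX.GGroup := fun r m s v hs hv =>
  group_gen r m s v hs hv

end Pool.Agent.Y641.LX
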