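import Mathlib

/-!
# Project LX: walks meeting every pair of large sets (counting)

A deterministic form of the first moment method: for a family of relations `R i` on a finite
set `S` there is a walk which avoids few of the relations.
-/

set_option autoImplicit false

namespace Pool.Agent.Y641.LX

open Finset

/-- the smallest value is at most the mean -/
theorem exists_avg {S : Type} [Fintype S] [Nonempty S] (f : S → ℕ) :
    ∃ y, Fintype.card S * f y ≤ ∑ z, f z := by
  obtain ⟨y, -, hy⟩ := Finset.exists_min_image (Finset.univ : Finset S) f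
    ⟨Classical.arbitrary S, Finset.mem_univ _⟩
  refine ⟨y, ?_⟩
  have h := Finset.card_nsmul_le_sum (Finset.univ : Finset S) f (f y) (fun z hz => hy z hz)
  rw [smul_eq_mul, Finset.card_univ] at h
  exact h

/-- number of walks of length `k` from `x` avoiding the relation `r` -/
def Nk {S : Type} [Fintype S] (r : S → S → Bool) : ℕ → S → ℕ
  | 0, _ => 1
  | k + 1, x => ∑ y, if r x y then 0 else Nk r k y

/-- a walk from `x` avoiding few of the relations in `H` -/
theorem walk_from {S ι : Type} [Fintype S] [Nonempty S] (r : ι → S → S → Bool) :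
    ∀ (k : ℕ) (x : S) (H : Finset ι), ∃ w : ℕ → S, w 0 = x ∧
      (H.filter fun h => ∀ t < k, r h (w t) (w (t + 1)) = false).card * Fintype.card S ^ k ≤
        ∑ h ∈ H, Nk (r h) k x := by
  classical
  intro k
  induction k with
  | zero =>
    intro x H
    refine ⟨fun _ => x, rfl, ?_⟩
    have e : ∑ h ∈ H, Nk (r h) 0 x = H.card := by
      simp [Nk]
    rw [e, pow_zero, mul_one]
    exact Finset.card_filter_le _ _
  | succ k ih =>
    intro x H
    obtain ⟨y, hy⟩ := exists_avg (fun y => ∑ h ∈ H, if r h x y then 0 else Nk (r h) k y)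
    obtain ⟨w, hw0, hw⟩ := ih y (H.filter fun h => r h x y = false)
    refine ⟨fun t => Nat.casesOn t x w, rfl, ?_⟩
    have e1 : ∑ h ∈ H, Nk (r h) (k + 1) x =
        ∑ y, ∑ h ∈ H, if r h x y then 0 else Nk (r h) k y := by
      rw [Finset.sum_comm]
      rfl
    have e2 : (∑ h ∈ H, if r h x y then 0 else Nk (r h) k y) =
        ∑ h ∈ H.filter (fun h => r h x y = false), Nk (r h) k y := by
      rw [Finset.sum_filter]
      refine Finset.sum_congr rfl fun h _ => ?_
      cases r h x y <;> simp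
    have e3 : (H.filter fun h => ∀ t < k + 1,
        r h ((fun t => Nat.casesOn t x w : ℕ → S) t)
          ((fun t => Nat.casesOn t x w : ℕ → S) (t + 1)) = false) ⊆
        (H.filter fun h => r h x y = false).filter fun h =>
          ∀ t < k, r h (w t) (w (t + 1)) = false := by
      intro h hh
      obtain ⟨h1, h2⟩ := Finset.mem_filter.1 hh
      refine Finset.mem_filter.2 ⟨Finset.mem_filter.2 ⟨h1, ?_⟩, fun t ht => ?_⟩
      · have := h2 0 (by omega)
        simpa [hw0] using this
      · exact h2 (t + 1) (by omega)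
    have h4 := Finset.card_le_card e3
    rw [e1]
    refine le_trans ?_ hy
    rw [e2, pow_succ]
    calc _ ≤ ((H.filter fun h => r h x y = false).filter fun h =>
          ∀ t < k, r h (w t) (w (t + 1)) = false).card *
            (Fintype.card S ^ k * Fintype.card S) := Nat.mul_le_mul_right _ h4
      _ = Fintype.card S * (((H.filter fun h => r h x y = false).filter fun h =>
          ∀ t < k, r h (w t) (w (t + 1)) = false).card * Fintype.card S ^ k) := by ring
      _ ≤ _ := Nat.mul_le_mul_left _ hw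

/-- a walk avoiding few of the relations in `H` -/
theorem walk_any {S ι : Type} [Fintype S] [Nonempty S] (r : ι → S → S → Bool) (k : ℕ)
    (H : Finset ι) : ∃ w : ℕ → S,
      (H.filter fun h => ∀ t < k, r h (w t) (w (t + 1)) = false).card *
        Fintype.card S ^ (k + 1) ≤ ∑ h ∈ H, ∑ x, Nk (r h) k x := by
  classical
  obtain ⟨x, hx⟩ := exists_avg (fun x => ∑ h ∈ H, Nk (r h) k x)
  obtain ⟨w, -, hw⟩ := walk_from r k x H
  refine ⟨w, ?_⟩
  rw [Finset.sum_comm]
  refine le_trans ?_ hx
  calc _ = Fintype.card S * ((H.filter fun h => ∀ t < k, r h (w t) (w (t + 1)) = false).card *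
        Fintype.card S ^ k) := by rw [pow_succ]; ring
    _ ≤ _ := Nat.mul_le_mul_left _ hw

/-- the forbidden adjacencies of the classes `0` and `1` -/
def adj (d c : Fin 3) : Bool := (d == 0 && c == 1) || (d == 1 && c == 0)

/-- the weights of the classes -/
def wt : Fin 3 → ℕ := ![12, 12, 17]

theorem wt_ineq (d : Fin 3) : 12 * ∑ c, (if adj d c then 0 else wt c) ≤ 29 * wt d := by
  revert d
  decide

theorem sum_classes {S : Type} [Fintype S] [DecidableEq S] (n : ℕ) (h : S → Fin 3)
    (hn : ∀ c, (Finset.univ.filter fun x => h x = c).card = n) (g : Fin 3 → ℕ) :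
    ∑ y, g (h y) = n * ∑ c, g c := by
  rw [← Finset.sum_fiberwise Finset.univ h (fun y => g (h y)), Finset.mul_sum]
  refine Finset.sum_congr rfl fun c _ => ?_
  rw [← hn c, ← smul_eq_mul, ← Finset.sum_const]
  refine Finset.sum_congr rfl fun y hy => ?_
  rw [(Finset.mem_filter.1 hy).2]

theorem Nk_le {S : Type} [Fintype S] [DecidableEq S] (n : ℕ) (h : S → Fin 3)
    (hn : ∀ c, (Finset.univ.filter fun x => h x = c).card = n) :
    ∀ (k : ℕ) (x : S), 12 ^ (k + 1) * Nk (fun x y => adj (h x) (h y)) k x ≤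
      wt (h x) * (29 * n) ^ k := by
  intro k
  induction k with
  | zero =>
    intro x
    have h1 : ∀ d : Fin 3, 12 ≤ wt d := by decide
    simpa [Nk] using h1 (h x)
  | succ k ih =>
    intro x
    have e1 : 12 ^ (k + 1 + 1) * Nk (fun x y => adj (h x) (h y)) (k + 1) x =
        12 * ∑ y, (if adj (h x) (h y) then 0 else
          12 ^ (k + 1) * Nk (fun x y => adj (h x) (h y)) k y) := by
      rw [Nk, pow_succ, mul_comm (12 ^ (k + 1)) 12, mul_assoc, Finset.mul_sum]
      congr 1
      refine Finset.sum_congr rfl fun y _ => ?_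
      split_ifs <;> simp
    rw [e1]
    calc 12 * ∑ y, (if adj (h x) (h y) then 0 else
          12 ^ (k + 1) * Nk (fun x y => adj (h x) (h y)) k y)
        ≤ 12 * ∑ y, (if adj (h x) (h y) then 0 else wt (h y)) * (29 * n) ^ k := by
          refine Nat.mul_le_mul_left _ (Finset.sum_le_sum fun y _ => ?_)
          split_ifs
          · simp
          · exact ih y
      _ = 12 * ((∑ y, (if adj (h x) (h y) then 0 else wt (h y))) * (29 * n) ^ k) := by
          rw [Finset.sum_mul]
      _ = 12 * (n * (∑ c, (if adj (h x) c then 0 else wt c)) * (29 * n) ^ k) := by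
          rw [sum_classes n h hn (fun c => if adj (h x) c then 0 else wt c)]
      _ = (12 * ∑ c, (if adj (h x) c then 0 else wt c)) * (n * (29 * n) ^ k) := by ring
      _ ≤ (29 * wt (h x)) * (n * (29 * n) ^ k) := Nat.mul_le_mul_right _ (wt_ineq _)
      _ = wt (h x) * (29 * n) ^ (k + 1) := by rw [pow_succ]; ring

theorem numeric (n : ℕ) (hn : 0 < n) : 41 * (27 * 29 ^ 16) ^ n < 36 * (36 ^ 16) ^ n := by
  obtain ⟨k, rfl⟩ : ∃ k, n = k + 1 := ⟨n - 1, by omega⟩
  have h1 : (27 * 29 ^ 16) ^ k ≤ (36 ^ 16) ^ k := Nat.pow_le_pow_left (by norm_num) k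
  have h2 : 41 * (27 * 29 ^ 16) < 36 * 36 ^ 16 := by norm_num
  calc 41 * (27 * 29 ^ 16) ^ (k + 1) = (41 * (27 * 29 ^ 16)) * (27 * 29 ^ 16) ^ k := by
        rw [pow_succ]; ring
    _ ≤ (41 * (27 * 29 ^ 16)) * (36 ^ 16) ^ k := Nat.mul_le_mul_left _ h1
    _ < (36 * 36 ^ 16) * (36 ^ 16) ^ k :=
        Nat.mul_lt_mul_of_pos_right h2 (by positivity)
    _ = 36 * (36 ^ 16) ^ (k + 1) := by rw [pow_succ (36 ^ 16) k]; ring

/-- a walk of length `16 n` on `3 n` vertices meeting every pair of disjoint sets with `n`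
elements -/
theorem exists_walk (n : ℕ) (hn : 0 < n) : ∃ w : ℕ → Fin (3 * n),
    ∀ A B : Finset (Fin (3 * n)), Disjoint A B → A.card = n → B.card = n →
      ∃ t : Fin (16 * n), (w t ∈ A ∧ w (t + 1) ∈ B) ∨ (w (t + 1) ∈ A ∧ w t ∈ B) := by
  classical
  have : Nonempty (Fin (3 * n)) := ⟨⟨0, by omega⟩⟩
  let H : Finset (Fin (3 * n) → Fin 3) := Finset.univ.filter fun h =>
    ∀ c, (Finset.univ.filter fun x => h x = c).card = n
  obtain ⟨w, hw⟩ := walk_any (fun (h : Fin (3 * n) → Fin 3) x y => adj (h x) (h y)) (16 * n) H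
  refine ⟨w, ?_⟩
  set bad := H.filter fun h => ∀ t < 16 * n, adj (h (w t)) (h (w (t + 1))) = false with hbad
  have hsum : 12 ^ (16 * n + 1) * ∑ h ∈ H, ∑ x, Nk (fun x y => adj (h x) (h y)) (16 * n) x ≤
      H.card * (41 * n * (29 * n) ^ (16 * n)) := by
    rw [Finset.mul_sum, ← smul_eq_mul H.card]
    refine Finset.sum_le_card_nsmul _ _ _ fun h hh => ?_
    have hh' := (Finset.mem_filter.1 hh).2
    rw [Finset.mul_sum]
    calc _ ≤ ∑ x, wt (h x) * (29 * n) ^ (16 * n) :=
          Finset.sum_le_sum fun x _ => Nk_le n h hh' (16 * n) x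
      _ = (n * ∑ c, wt c) * (29 * n) ^ (16 * n) := by
          rw [← Finset.sum_mul, sum_classes n h hh' wt]
      _ = 41 * n * (29 * n) ^ (16 * n) := by
          have : ∑ c, wt c = 41 := by decide
          rw [this]; ring
  have hH : H.card ≤ 27 ^ n := by
    refine (Finset.card_le_univ H).trans ?_
    rw [Fintype.card_fun, Fintype.card_fin, Fintype.card_fin, pow_mul]
    norm_num
  have hb0 : bad.card = 0 := by
    by_contra hne
    have hpos : 1 ≤ bad.card := Nat.one_le_iff_ne_zero.2 hne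
    rw [Fintype.card_fin] at hw
    have h1 : 12 ^ (16 * n + 1) * (3 * n) ^ (16 * n + 1) ≤
        27 ^ n * (41 * n * (29 * n) ^ (16 * n)) := by
      calc 12 ^ (16 * n + 1) * (3 * n) ^ (16 * n + 1)
          ≤ 12 ^ (16 * n + 1) * (bad.card * (3 * n) ^ (16 * n + 1)) :=
            Nat.mul_le_mul_left _ (Nat.le_mul_of_pos_left _ hpos)
        _ ≤ 12 ^ (16 * n + 1) * ∑ h ∈ H, ∑ x, Nk (fun x y => adj (h x) (h y)) (16 * n) x :=
            Nat.mul_le_mul_left _ hw
        _ ≤ H.card * (41 * n * (29 * n) ^ (16 * n)) := hsum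
        _ ≤ _ := Nat.mul_le_mul_right _ hH
    have e1 : 12 ^ (16 * n + 1) * (3 * n) ^ (16 * n + 1) =
        (36 * (36 ^ 16) ^ n) * (n * n ^ (16 * n)) := by
      rw [← mul_pow, show 12 * (3 * n) = 36 * n by ring, mul_pow, pow_succ, pow_succ,
        pow_mul 36 16 n]
      ring
    have e2 : 27 ^ n * (41 * n * (29 * n) ^ (16 * n)) =
        (41 * (27 * 29 ^ 16) ^ n) * (n * n ^ (16 * n)) := by
      rw [mul_pow 29 n, mul_pow 27 (29 ^ 16), pow_mul 29 16 n]
      ring
    rw [e1, e2] at h1
    have h2 := Nat.le_of_mul_le_mul_right h1 (by positivity)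
    exact absurd h2 (not_le.2 (numeric n hn))
  intro A B hAB hA hB
  let h : Fin (3 * n) → Fin 3 := fun x => if x ∈ A then 0 else if x ∈ B then 1 else 2
  have hx0 : ∀ x, h x = 0 ↔ x ∈ A := by
    intro x
    by_cases h1 : x ∈ A
    · simp [h, h1]
    · by_cases h2 : x ∈ B <;> simp [h, h1, h2]
  have hx1 : ∀ x, h x = 1 ↔ x ∈ B := by
    intro x
    by_cases h1 : x ∈ A
    · have h2 : x ∉ B := Finset.disjoint_left.1 hAB h1
      simp [h, h1, h2]
    · by_cases h2 : x ∈ B <;> simp [h, h1, h2]
  have hx2 : ∀ x, h x = 2 ↔ x ∈ Finset.univ \ (A ∪ B) := by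
    intro x
    by_cases h1 : x ∈ A
    · simp [h, h1]
    · by_cases h2 : x ∈ B <;> simp [h, h1, h2]
  have hH : h ∈ H := by
    refine Finset.mem_filter.2 ⟨Finset.mem_univ _, fun c => ?_⟩
    fin_cases c
    · have e : (Finset.univ.filter fun x => h x = 0) = A := by
        ext x; simp [hx0]
      exact (congrArg Finset.card e).trans hA
    · have e : (Finset.univ.filter fun x => h x = 1) = B := by
        ext x; simp [hx1]
      exact (congrArg Finset.card e).trans hB
    · have e : (Finset.univ.filter fun x => h x = 2) = Finset.univ \ (A ∪ B) := by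
        ext x
        rw [Finset.mem_filter, hx2]
        simp
      refine (congrArg Finset.card e).trans ?_
      rw [Finset.card_sdiff_of_subset (Finset.subset_univ _),
        Finset.card_union_of_disjoint hAB, Finset.card_univ, Fintype.card_fin, hA, hB]
      omega
  have hnb : h ∉ bad := by
    rw [Finset.card_eq_zero.1 hb0]
    exact Finset.notMem_empty _
  have h3 : ∃ t < 16 * n, adj (h (w t)) (h (w (t + 1))) = true := by
    by_contra hcon
    push Not at hcon
    exact hnb (Finset.mem_filter.2 ⟨hH, fun t ht => by simpa using hcon t ht⟩)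
  obtain ⟨t, ht, ht2⟩ := h3
  refine ⟨⟨t, ht⟩, ?_⟩
  have h4 : ∀ d c : Fin 3, adj d c = true → (d = 0 ∧ c = 1) ∨ (c = 0 ∧ d = 1) := by decide
  rcases h4 _ _ ht2 with ⟨h5, h6⟩ | ⟨h5, h6⟩
  · exact Or.inl ⟨(hx0 _).1 h5, (hx1 _).1 h6⟩
  · exact Or.inr ⟨(hx0 _).1 h5, (hx1 _).1 h6⟩

end Pool.Agent.Y641.LX
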