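import Pool.Agent.Z894.LX.Stm
import Pool.Agent.TH922.KC.Con5
import Pool.Agent.Y641.LX.Walk0

/-!
# Project LX, part 9: robust walks
-/

set_option autoImplicit false

namespace Pool.Agent.Y641.LX

open Pool.Agent.TH922.KC

theorem walk_holds : Pool.Agent.Z894.LX.GWalk := by
  refine ⟨fun n => ?_, fun n hn => ?_⟩
  · refine ⟨(n + 1) ^ 2 / 4 + 1, fun t => Fin.ofNat ((n + 1) ^ 2 / 4 + 1) t, fun K hK => ?_⟩
    obtain ⟨T, h1, h2, h3⟩ := cycle_robust n ((n + 1) ^ 2 / 4) le_rfl K hK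
    refine ⟨T, h1, h2, fun U hU hUn => ?_⟩
    obtain ⟨c, hc⟩ := h3 U hU hUn
    refine ⟨c.val, c.isLt, ?_⟩
    have e : Fin.ofNat ((n + 1) ^ 2 / 4 + 1) c.val = c := by
      apply Fin.ext
      rw [Fin.val_ofNat]
      exact Nat.mod_eq_of_lt c.isLt
    have e2 : Fin.ofNat ((n + 1) ^ 2 / 4 + 1) (c.val + 1) = c + 1 := by
      apply Fin.ext
      rw [Fin.val_ofNat, Fin.val_add, Fin.val_one', Nat.add_mod c.val 1, Nat.mod_eq_of_lt c.isLt]
    simp only [e, e2]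
    exact hc
  · obtain ⟨w, hw⟩ := exists_walk n hn
    refine ⟨3 * n, w, fun K hK => ?_⟩
    obtain ⟨T, h1, h2, h3⟩ := joined_robust hn (fun t : Fin (16 * n) => w t)
      (fun t : Fin (16 * n) => w (t + 1)) hw K hK
    refine ⟨T, h1, h2, fun U hU hUn => ?_⟩
    obtain ⟨c, hc⟩ := h3 U hU hUn
    exact ⟨c.val, c.isLt, hc⟩

end Pool.Agent.Y641.LX
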